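import Pool.Graph.R_pool_sql_team_seeded_63374d34.N162.CW.Final
import Pool.Graph.R_pool_sql_team_seeded_63374d34.N162.PR.Lift
import Pool.Graph.R_seed8.TH466.QG.Low

/-! Cycles with null trace on the images of smooth surfaces in space. -/

set_option autoImplicit false
set_option linter.overlappingInstances false

open FF Pool.Agent.W603.LV Pool.Agent.N162.BC

namespace Pool.Agent.H834.Img

/-- The preimage of a cycle with null trace under a generically finite map `V ⇢ W`, where `V` is a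
smooth surface in space. -/
theorem image_main {d N : ℕ} (hd : 7 * N + 8 ≤ d)
    {F : MvPolynomial (Fin 4) ℂ} (homogeneous : F.IsHomogeneous d)
    (smooth : ∀ z : Fin 4 → ℂ, z ≠ 0 → ∃ l, MvPolynomial.eval z (MvPolynomial.pderiv l F) ≠ 0)
    {K L Ω : Type} [Field K] [Algebra ℂ K] [Field L] [Algebra ℂ L] [Algebra L K]
    [IsScalarTower ℂ L K] [FiniteDimensional L K] [Field Ω] [Algebra ℂ Ω] [IsAlgClosed Ω]
    (hK : Algebra.trdeg ℂ K = 2) (hΩ : Algebra.trdeg ℂ Ω = 2) {x : Fin 4 → K} (hx0 : x 0 = 1)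
    (hx : MvPolynomial.aeval x F = 0) (hgen : IntermediateField.adjoin ℂ (Set.range x) = ⊤)
    {c : (L →ₐ[ℂ] Ω) →₀ ℤ} (hc : NullTrace 2 c)
    (hcard : Module.finrank L K * c.support.card < (N + 1) * (d - 2 - N))
    (hm : (∃ B : ℕ, Module.finrank L K * ∑ σ ∈ c.support, (c σ).natAbs + (N + 1) * B ^ 2 < B * d) ∨
      ((c.support.image c).card + 1) * (N + 1) < d ∨
      AlgebraicIndependent ℚ fun e : {e : Fin 4 →₀ ℕ // e.degree = d} => F.coeff e) :
    (∃ c' : (K →ₐ[ℂ] Ω) →₀ ℤ, (∀ σ', c' σ' = c (restr L Ω σ')) ∧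
      ∃ (r : ℕ) (E : Fin r → Type) (_ : ∀ i, Field (E i)) (_ : ∀ i, Algebra Ω (E i))
      (_ : ∀ i, IsFF Ω (E i)) (X : ∀ i, Fin 4 → E i) (a : Fin r → ℤ),
      (∀ i, X i 0 = 1 ∧ IntermediateField.adjoin Ω (Set.range (X i)) = ⊤ ∧
        Pool.Agent.N162.CV.cmp Ω F (X i) ≠ 0) ∧ ∑ i, Pool.Agent.N162.CV.degree Ω (X i) ≤ N ∧
      ∀ σ : K →ₐ[ℂ] Ω, c' σ = ∑ i, a i * Pool.Agent.N162.CV.mu (X i)
        (Pool.Agent.N162.CV.cmp Ω F (X i)) (Pool.Agent.N162.CV.pt x σ)) ∧
    Module.finrank L K • c ∈ Rat L Ω := by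
  classical
  have heK : Algebra.EssFiniteType ℂ K := by
    rw [← IntermediateField.fg_top_iff]
    exact ⟨Finset.univ.image x, by
      rw [Finset.coe_image, Finset.coe_univ, Set.image_univ, hgen]⟩
  have heL : Algebra.EssFiniteType ℂ L := Pool.Agent.TH466.QG.ess_below (K := K)
  have hL : Algebra.trdeg ℂ L = 2 := by
    have h1 := _root_.trdeg_add_eq ℂ L (A := K)
    rw [hK, _root_.trdeg_eq_zero_iff.2 (inferInstance : Algebra.IsAlgebraic L K), add_zero] at h1
    exact h1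
  obtain ⟨c', hc'1, hcard', hsum, hmap⟩ := Pool.Agent.N162.PR.exists_lift_cycle (K' := K) c
  have hnull : NullTrace 2 c' :=
    Pool.Agent.N162.PR.null_lift (n := 2) (by rw [hL]; norm_num) hc hc'1 hsum
  have hsupp : ∀ σ', σ' ∈ c'.support ↔ restr L Ω σ' ∈ c.support := fun σ' => by
    rw [Finsupp.mem_support_iff, hc'1, Finsupp.mem_support_iff]
  have hsumabs : ∑ σ' ∈ c'.support, (c' σ').natAbs =
      Module.finrank L K * ∑ σ ∈ c.support, (c σ).natAbs := by
    have h1 : ∀ σ ∈ c.support, (c'.support.filter fun σ' => restr L Ω σ' = σ).card =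
        Module.finrank L K := by
      intro σ hσ
      obtain ⟨S, hS, hScard, _⟩ := Pool.Agent.N162.PR.exists_fib (K' := K) σ
      rw [← hScard]
      congr 1
      ext σ'
      rw [Finset.mem_filter, hS, hsupp]
      constructor
      · exact fun h => h.2
      · intro h
        exact ⟨by rw [h]; exact hσ, h⟩
    rw [← Finset.sum_fiberwise_of_maps_to (s := c'.support) (t := c.support)
      (g := fun σ' => restr L Ω σ') (fun σ' h => (hsupp σ').1 h), Finset.mul_sum]
    refine Finset.sum_congr rfl fun σ hσ => ?_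
    rw [← h1 σ hσ, ← smul_eq_mul, ← Finset.sum_const]
    refine Finset.sum_congr rfl fun σ' hσ' => ?_
    rw [hc'1, (Finset.mem_filter.1 hσ').2]
  have himg : (c'.support.image c').card ≤ (c.support.image c).card := by
    refine Finset.card_le_card fun b hb => ?_
    rw [Finset.mem_image] at hb ⊢
    obtain ⟨σ', hσ', rfl⟩ := hb
    exact ⟨restr L Ω σ', (hsupp σ').1 hσ', (hc'1 σ').symm⟩
  obtain ⟨hsec, hrat⟩ := Pool.Agent.N162.CW.final smooth homogeneous hd hx0 hx hgen hK hΩ hnull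
    (by rw [hcard']; exact hcard) (by
      rcases hm with ⟨B, hB⟩ | hv | hi
      · exact Or.inl ⟨B, by rw [hsumabs]; exact hB⟩
      · exact Or.inr (Or.inl (lt_of_le_of_lt
          (Nat.mul_le_mul_right _ (Nat.add_le_add_right himg 1)) hv))
      · exact Or.inr (Or.inr hi))
  refine ⟨⟨c', hc'1, hsec⟩, ?_⟩
  rw [← hmap]
  exact rat_push hrat

end Pool.Agent.H834.Img
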